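import Pool.Agent.H24.SCG2.Stmts2
import Pool.Agent.H62.SCG.AUF
import Pool.Agent.H64.SCG.IOT

/-!
Module AUFZ of the project SCG2: a field automorphism which acts like a diagonal automorphism is
trivial.
-/

namespace Pool.Agent.H62.SCG2

open Matrix Pool.SCG
open Pool.Agent.H62.SCG (T12 field_T12)

theorem aufz_thm : AUFZStmt := by
  intro F _ P σ
  refine ⟨?_, ?_⟩
  · intro h
    have hap : ∀ g : SL3 F, diagAut P (fieldAut σ g) = g := by
      intro g
      have := congrArg (fun e : MulAut (SL3 F) => e g) h
      simpa using this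
    have hE : ∀ a : F, (P : M3 F) * (T12 F (σ a) : M3 F) = (T12 F a : M3 F) * (P : M3 F) := by
      intro a
      have h1 := hap (T12 F a)
      rw [field_T12] at h1
      have h2 : (P : M3 F) * (T12 F (σ a) : M3 F) * ((P⁻¹ : GL (Fin 3) F) : M3 F)
          = (T12 F a : M3 F) := congrArg (fun g : SL3 F => (g : M3 F)) h1
      have h3 : ((P⁻¹ : GL (Fin 3) F) : M3 F) * (P : M3 F) = 1 := by
        rw [← Units.val_mul, inv_mul_cancel, Units.val_one]
      rw [← h2, Matrix.mul_assoc _ _ (P : M3 F), h3, Matrix.mul_one]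
    have hdet : (P : M3 F).det ≠ 0 := P.det_ne_zero
    generalize hM : (P : M3 F) = M at *
    have e1 := hE 1
    rw [map_one] at e1
    have a00 := congrFun (congrFun e1 0) 0
    have a01 := congrFun (congrFun e1 0) 1
    have a21 := congrFun (congrFun e1 2) 1
    simp [T12, Matrix.mul_apply, Fin.sum_univ_three] at a00 a01 a21
    have a01 : M 0 0 = M 1 1 := by linear_combination a01
    have h00 : M 0 0 ≠ 0 := by
      intro h0
      apply hdet
      rw [Matrix.det_fin_three, h0, a00, a21]
      ring
    ext a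
    have ea := congrFun (congrFun (hE a) 0) 1
    simp [T12, Matrix.mul_apply, Fin.sum_univ_three] at ea
    rw [← a01] at ea
    have h4 : M 0 0 * (σ a - a) = 0 := by linear_combination ea
    rcases mul_eq_zero.1 h4 with h5 | h5
    · exact absurd h5 h00
    · simpa using sub_eq_zero.1 h5
  · intro h
    obtain ⟨g, h1, h2⟩ := Pool.Agent.H64.SCG.exists_trace F
    have h3 : it (diagAut P (fieldAut σ g)) = g := by
      exact congrArg (fun e : MulAut (SL3 F) => e g) h
    have h4 : diagAut P (fieldAut σ g) = it g := by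
      rw [← h3, it_it, h3]
    have h5 : ((diagAut P (fieldAut σ g) : SL3 F) : M3 F).trace = 1 := by
      show ((P : M3 F) * ((g : M3 F).map (σ : F →+* F)) * ((P⁻¹ : GL (Fin 3) F) : M3 F)).trace = 1
      have h6 : ((P⁻¹ : GL (Fin 3) F) : M3 F) * (P : M3 F) = 1 := by
        rw [← Units.val_mul, inv_mul_cancel, Units.val_one]
      rw [Matrix.trace_mul_comm, ← Matrix.mul_assoc, h6, Matrix.one_mul]
      have h7 : ((g : M3 F).map (σ : F →+* F)).trace = σ ((g : M3 F).trace) := by
        simp [Matrix.trace, Fin.sum_univ_three]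
      rw [h7, h1, map_one]
    rw [h4, coe_it, Matrix.trace_transpose, h2] at h5
    exact zero_ne_one h5

end Pool.Agent.H62.SCG2
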