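import Pool.Agent.H24.SCG2.Stmts2
import Pool.Agent.H62.SCG.AUF
import Pool.Agent.H62.SCG.AUN

/-!
Module AUIZ of the project SCG2: the involutions of `AutG F`.
-/

namespace Pool.Agent.H62.SCG2

open Matrix Pool.SCG
open Pool.Agent.H62.SCG (T12 T13 T21 fieldAut_mul fieldAut_one fieldAut_it)

variable {F : Type} [Field F]

theorem diag_mul (P Q : GL (Fin 3) F) : diagAut P * diagAut Q = diagAut (P * Q) := by
  ext g : 1
  apply Subtype.ext
  show (P : M3 F) * ((Q : M3 F) * (g : M3 F) * ((Q⁻¹ : GL (Fin 3) F) : M3 F)) *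
    ((P⁻¹ : GL (Fin 3) F) : M3 F) = ((P * Q : GL (Fin 3) F) : M3 F) * (g : M3 F) *
      (((P * Q)⁻¹ : GL (Fin 3) F) : M3 F)
  rw [_root_.mul_inv_rev, Units.val_mul, Units.val_mul]
  simp only [Matrix.mul_assoc]

theorem field_diag (σ : F ≃+* F) (P : GL (Fin 3) F) : fieldAut σ * diagAut P =
    diagAut (Matrix.GeneralLinearGroup.map (σ : F →+* F) P) * fieldAut σ := by
  ext g : 1
  apply Subtype.ext
  show ((P : M3 F) * (g : M3 F) * ((P⁻¹ : GL (Fin 3) F) : M3 F)).map (σ : F →+* F) =
    ((P : M3 F).map (σ : F →+* F)) * ((g : M3 F).map (σ : F →+* F)) *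
      (((Matrix.GeneralLinearGroup.map (σ : F →+* F) P)⁻¹ : GL (Fin 3) F) : M3 F)
  rw [← map_inv, Matrix.map_mul, Matrix.map_mul]
  rfl

/-- inverse transpose -/
def tP (P : GL (Fin 3) F) : GL (Fin 3) F :=
  ⟨((P⁻¹ : GL (Fin 3) F) : M3 F).transpose, (P : M3 F).transpose, by
    rw [← Matrix.transpose_mul, ← Units.val_mul, mul_inv_cancel, Units.val_one,
      Matrix.transpose_one], by
    rw [← Matrix.transpose_mul, ← Units.val_mul, inv_mul_cancel, Units.val_one,
      Matrix.transpose_one]⟩

theorem graph_diag_graph (P : GL (Fin 3) F) :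
    graphAut F * diagAut P * graphAut F = diagAut (tP P) := by
  ext g : 1
  show it (diagAut P (it g)) = diagAut (tP P) g
  have h3 : ((P⁻¹ : GL (Fin 3) F) : M3 F) * (P : M3 F) = 1 := by
    rw [← Units.val_mul, inv_mul_cancel, Units.val_one]
  have h4 : (P : M3 F) * ((P⁻¹ : GL (Fin 3) F) : M3 F) = 1 := by
    rw [← Units.val_mul, mul_inv_cancel, Units.val_one]
  have key : (diagAut (tP P) g).transpose * diagAut P (it g) = 1 := by
    apply Subtype.ext
    show (((P⁻¹ : GL (Fin 3) F) : M3 F).transpose * (g : M3 F) * (P : M3 F).transpose).transpose *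
      ((P : M3 F) * ((it g : SL3 F) : M3 F) * ((P⁻¹ : GL (Fin 3) F) : M3 F)) = 1
    rw [Matrix.transpose_mul, Matrix.transpose_mul, Matrix.transpose_transpose,
      Matrix.transpose_transpose, coe_it]
    have h5 : (g : M3 F).transpose * (adjugate (g : M3 F)).transpose = 1 := by
      rw [← Matrix.transpose_mul, Matrix.adjugate_mul, g.2, one_smul, Matrix.transpose_one]
    calc (P : M3 F) * ((g : M3 F).transpose * ((P⁻¹ : GL (Fin 3) F) : M3 F)) *
        ((P : M3 F) * (adjugate (g : M3 F)).transpose * ((P⁻¹ : GL (Fin 3) F) : M3 F))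
        = (P : M3 F) * ((g : M3 F).transpose * ((((P⁻¹ : GL (Fin 3) F) : M3 F) * (P : M3 F)) *
          (adjugate (g : M3 F)).transpose)) * ((P⁻¹ : GL (Fin 3) F) : M3 F) := by
          simp only [Matrix.mul_assoc]
      _ = 1 := by rw [h3, Matrix.one_mul, h5, Matrix.mul_one, h4]
  have h6 := inv_eq_of_mul_eq_one_left key
  show (diagAut P (it g))⁻¹.transpose = _
  rw [h6]
  apply Subtype.ext
  rfl

theorem graph_sq : graphAut F * graphAut F = 1 := by
  ext g : 1
  exact it_it g

theorem field_graph (σ : F ≃+* F) : fieldAut σ * graphAut F = graphAut F * fieldAut σ := by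
  ext g : 1
  exact fieldAut_it σ g

theorem scalar_of {M : M3 F} (hM : M.det ≠ 0)
    (h12 : M * (T12 F 1 : M3 F) = (T12 F 1 : M3 F) * M)
    (h13 : M * (T13 F 1 : M3 F) = (T13 F 1 : M3 F) * M)
    (h21 : M * (T21 F 1 : M3 F) = (T21 F 1 : M3 F) * M) :
    ∃ c : F, c ≠ 0 ∧ M = c • (1 : M3 F) := by
  have a00 := congrFun (congrFun h12 0) 0
  have a01 := congrFun (congrFun h12 0) 1
  have a02 := congrFun (congrFun h12 0) 2
  have a21 := congrFun (congrFun h12 2) 1
  have b01 := congrFun (congrFun h13 0) 1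
  have b02 := congrFun (congrFun h13 0) 2
  have c00 := congrFun (congrFun h21 0) 0
  have c12 := congrFun (congrFun h21 1) 2
  simp [T12, T13, T21, Matrix.mul_apply, Fin.sum_univ_three] at a00 a01 a02 a21 b01 b02 c00 c12
  have a01 : M 0 0 = M 1 1 := by linear_combination a01
  have b02 : M 0 0 = M 2 2 := by linear_combination b02
  have hM1 : M = M 0 0 • (1 : M3 F) := by
    ext i j
    fin_cases i <;> fin_cases j <;> simp [a00, a02, a21, b01, c00, c12, ← a01, ← b02]
  refine ⟨M 0 0, ?_, hM1⟩
  intro h0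
  apply hM
  rw [hM1, h0, zero_smul]
  simp

theorem diag_one {P : GL (Fin 3) F} (h : diagAut P = 1) :
    ∃ c : F, c ≠ 0 ∧ (P : M3 F) = c • (1 : M3 F) := by
  have hap : ∀ g : SL3 F, (P : M3 F) * (g : M3 F) = (g : M3 F) * (P : M3 F) := by
    intro g
    have h1 : diagAut P g = g := by rw [h]; rfl
    have h2 : (P : M3 F) * (g : M3 F) * ((P⁻¹ : GL (Fin 3) F) : M3 F)
        = (g : M3 F) := congrArg (fun g : SL3 F => (g : M3 F)) h1
    have h3 : ((P⁻¹ : GL (Fin 3) F) : M3 F) * (P : M3 F) = 1 := by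
      rw [← Units.val_mul, inv_mul_cancel, Units.val_one]
    nth_rw 2 [← h2]
    rw [Matrix.mul_assoc _ _ (P : M3 F), h3, Matrix.mul_one]
  exact scalar_of P.det_ne_zero (hap _) (hap _) (hap _)

theorem homA_of {P : GL (Fin 3) F} (h3 : diagAut P * diagAut P = 1) : HomA (diagAut P) := by
  rw [diag_mul] at h3
  obtain ⟨c, hc, hP⟩ := diag_one h3
  rw [Units.val_mul] at hP
  have hd : (P : M3 F).det ≠ 0 := P.det_ne_zero
  have hdd : (P : M3 F).det * (P : M3 F).det = c ^ 3 := by
    rw [← Matrix.det_mul, hP, Matrix.det_smul, Matrix.det_one, mul_one, Fintype.card_fin]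
  set D := (P : M3 F).det with hD
  have hk : (c / D) ^ 3 * D = 1 := by
    rw [div_pow, ← hdd]
    field_simp
  have hk2 : (c / D) * (c / D) * c = 1 := by
    have : (c / D) * (c / D) * c = c ^ 3 / (D * D) := by
      field_simp
    rw [this, hdd, div_self (pow_ne_zero _ hc)]
  refine ⟨⟨(c / D) • (P : M3 F), by
    rw [Matrix.det_smul, Fintype.card_fin]; exact hk⟩, ?_, ?_⟩
  · apply Subtype.ext
    show ((c / D) • (P : M3 F)) * ((c / D) • (P : M3 F)) = 1
    rw [Matrix.smul_mul, Matrix.mul_smul, hP, smul_smul, smul_smul, hk2, one_smul]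
  · ext g : 1
    apply Subtype.ext
    have hk0 : c / D ≠ 0 := div_ne_zero hc hd
    have h4 : (P : M3 F) * ((P⁻¹ : GL (Fin 3) F) : M3 F) = 1 := by
      rw [← Units.val_mul, mul_inv_cancel, Units.val_one]
    have h3 : ((P⁻¹ : GL (Fin 3) F) : M3 F) * (P : M3 F) = 1 := by
      rw [← Units.val_mul, inv_mul_cancel, Units.val_one]
    set h : SL3 F := ⟨(c / D) • (P : M3 F), by
      rw [Matrix.det_smul, Fintype.card_fin]; exact hk⟩ with hh
    have e1 : h * g = diagAut P g * h := by
      apply Subtype.ext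
      show ((c / D) • (P : M3 F)) * (g : M3 F) = ((P : M3 F) * (g : M3 F) *
        ((P⁻¹ : GL (Fin 3) F) : M3 F)) * ((c / D) • (P : M3 F))
      rw [Matrix.smul_mul, Matrix.mul_smul, Matrix.mul_assoc _ _ (P : M3 F), h3, Matrix.mul_one]
    have e2 : h * g * h⁻¹ = diagAut P g := by
      rw [e1, mul_inv_cancel_right]
    show ((diagAut P g : SL3 F) : M3 F) = ((h * g * h⁻¹ : SL3 F) : M3 F)
    rw [e2]

theorem auiz_thm (hN : AUNZStmt) (hF : AUFZStmt) (hO : FAOZStmt) : AUIZStmt := by
  intro F _ _ h2 hsq α hα hαα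
  have h11 : (1 : F ≃+* F) * 1 = 1 := one_mul _
  obtain ⟨P, σ, h | h⟩ := hN F α hα
  · left
    have e1 : diagAut P * fieldAut σ * (diagAut P * fieldAut σ) =
        diagAut (P * Matrix.GeneralLinearGroup.map (σ : F →+* F) P) * fieldAut (σ * σ) := by
      calc diagAut P * fieldAut σ * (diagAut P * fieldAut σ)
          = diagAut P * (fieldAut σ * diagAut P) * fieldAut σ := by simp only [mul_assoc]
        _ = _ := by
          rw [field_diag, ← fieldAut_mul, ← diag_mul]
          simp only [mul_assoc]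
    have hσ := hO F h2 hsq σ ((hF F _ _).1 (by rw [← e1, ← h]; exact hαα))
    rw [hσ, fieldAut_one, mul_one] at h
    rw [h] at hαα ⊢
    exact homA_of hαα
  · right
    have e1 : graphAut F * diagAut P * fieldAut σ * (graphAut F * diagAut P * fieldAut σ) =
        diagAut (tP P * Matrix.GeneralLinearGroup.map (σ : F →+* F) P) * fieldAut (σ * σ) := by
      calc graphAut F * diagAut P * fieldAut σ * (graphAut F * diagAut P * fieldAut σ)
          = graphAut F * diagAut P * (fieldAut σ * graphAut F) * diagAut P * fieldAut σ := by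
            simp only [mul_assoc]
        _ = (graphAut F * diagAut P * graphAut F) * (fieldAut σ * diagAut P) * fieldAut σ := by
            rw [field_graph]
            simp only [mul_assoc]
        _ = _ := by
          rw [field_diag, graph_diag_graph, ← fieldAut_mul, ← diag_mul]
          simp only [mul_assoc]
    have hσ := hO F h2 hsq σ ((hF F _ _).1 (by rw [← e1, ← h]; exact hαα))
    rw [hσ, fieldAut_one, mul_one] at h
    have h3 : diagAut (tP P * P) = 1 := by
      rw [← diag_mul, ← graph_diag_graph, ← hαα, h]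
      simp only [mul_assoc]
    obtain ⟨k, hk, hP⟩ := diag_one h3
    have h5 : (P : M3 F) = k • (P : M3 F).transpose := by
      have h6 : ((P⁻¹ : GL (Fin 3) F) : M3 F).transpose * (P : M3 F) = k • (1 : M3 F) := hP
      have h7 : (P : M3 F).transpose * ((P⁻¹ : GL (Fin 3) F) : M3 F).transpose = 1 := by
        rw [← Matrix.transpose_mul, ← Units.val_mul, inv_mul_cancel, Units.val_one,
          Matrix.transpose_one]
      calc (P : M3 F) = ((P : M3 F).transpose * ((P⁻¹ : GL (Fin 3) F) : M3 F).transpose) *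
            (P : M3 F) := by rw [h7, Matrix.one_mul]
        _ = (P : M3 F).transpose * (((P⁻¹ : GL (Fin 3) F) : M3 F).transpose * (P : M3 F)) := by
            rw [Matrix.mul_assoc]
        _ = _ := by rw [h6, Matrix.mul_smul, Matrix.mul_one]
    have hd : (P : M3 F).det ≠ 0 := P.det_ne_zero
    have hk3 : k ^ 3 = 1 := by
      have h8 := congrArg Matrix.det h5
      rw [Matrix.det_smul, Matrix.det_transpose, Fintype.card_fin] at h8
      have h9 : (k ^ 3 - 1) * (P : M3 F).det = 0 := by linear_combination -h8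
      rcases mul_eq_zero.1 h9 with h10 | h10
      · exact sub_eq_zero.1 h10
      · exact absurd h10 hd
    have hk2 : k ^ 2 = 1 := by
      have h8 : (P : M3 F) = (k * k) • (P : M3 F) := by
        have h9 := congrArg Matrix.transpose h5
        rw [Matrix.transpose_smul, Matrix.transpose_transpose] at h9
        rw [← smul_smul, ← h9, ← h5]
      have h10 := congrArg Matrix.det h8
      rw [Matrix.det_smul, Fintype.card_fin] at h10
      have h9 : ((k * k) ^ 3 - 1) * (P : M3 F).det = 0 := by linear_combination -h10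
      by_contra hne
      have h12 : (k * k - 1) • (P : M3 F) = 0 := by
        rw [sub_smul, one_smul, ← h8, sub_self]
      rcases smul_eq_zero.1 h12 with h13 | h13
      · exact hne (by linear_combination h13)
      · apply hd
        rw [h13]
        simp
    have hk1 : k = 1 := by
      have : k ^ 3 = k * k ^ 2 := by ring
      rw [this, hk2, mul_one] at hk3
      exact hk3
    refine ⟨P, ?_, h⟩
    nth_rw 2 [h5]
    rw [hk1, one_smul]

end Pool.Agent.H62.SCG2
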