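import Pool.Agent.H24.SCG2.Stmts4
import Pool.Agent.H24.SCG2.Base3

/-!
Module FGS of the project SCG2: powers of `b * c` commuting with `a` or `d` are trivial.
-/

namespace Pool.Agent.H62.SCG2

open Matrix Pool.SCG

variable {F : Type} [Field F]

theorem an_mul {l : F} : An l * An 1 = dg l 1 l⁻¹ := by
  ext i j
  fin_cases i <;> fin_cases j <;> simp [An, dg, Matrix.mul_apply, Fin.sum_univ_three]

theorem dg_pow' (m : F) (k : ℕ) : ∀ α : MulAut (SL3 F), GIs α false (dg m 1 m⁻¹) →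
    GIs (α ^ k) false (dg (m ^ k) 1 (m ^ k)⁻¹) := by
  intro α hα
  induction k with
  | zero =>
    rw [pow_zero, pow_zero, inv_one, dg_one]
    exact gis_one
  | succ k ih =>
    have h := ih.mul_inner hα
    rw [dg_mul, mul_one] at h
    have e : (m ^ k)⁻¹ * m⁻¹ = (m ^ k * m)⁻¹ := by rw [_root_.mul_inv_rev, mul_comm]
    rw [e] at h
    rw [pow_succ α k, pow_succ m k]
    exact h

/-- a diagonal element commuting with a polarity with two nonzero entries -/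
theorem comm_one {α β : MulAut (SL3 F)} {m : F} {B : M3 F} (hm : m ≠ 0)
    (hα : GIs α false (dg m 1 m⁻¹)) (hβ : GIs β true B) (h01 : B 0 1 ≠ 0) (h11 : B 1 1 ≠ 0)
    (hc : α * β = β * α) : α = 1 := by
  have e : dg m 1 m⁻¹ * dg m⁻¹ 1 m = 1 := by
    rw [dg_mul, mul_inv_cancel₀ hm, inv_mul_cancel₀ hm, mul_one, dg_one]
  have h1 := hα.mul_outer hβ e
  have h2 := hβ.mul_inner hα
  rw [hc] at h1
  obtain ⟨_, c, hc0, h3⟩ := h2.uniq h1
  rw [dg_transpose] at h3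
  have a01 := congrFun (congrFun h3 0) 1
  have a11 := congrFun (congrFun h3 1) 1
  rw [Matrix.smul_apply, Matrix.mul_apply, Matrix.mul_apply, Fin.sum_univ_three,
    Fin.sum_univ_three] at a01
  simp [dg] at a01
  simp [dg, Matrix.mul_apply, Fin.sum_univ_three] at a11
  have hc1 : c = 1 := by
    have : (c - 1) * B 1 1 = 0 := by linear_combination -a11
    rcases mul_eq_zero.1 this with h | h
    · exact sub_eq_zero.1 h
    · exact absurd h h11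
  have hm1 : m⁻¹ = 1 := by
    rw [hc1] at a01
    simpa [h01] using a01
  have hm2 : m = 1 := by
    rw [← inv_inv m, hm1, inv_one]
  rw [hα.eq_one_iff]
  refine ⟨1, ?_⟩
  rw [hm2, inv_one, dg_one, one_smul]

theorem fgs_thm : FGSStmt := by
  intro F _ s h3 hP a b c d hG
  have h2 : (2 : F) = -1 := by linear_combination h3
  have h2' : (2 : F) ≠ 0 := by
    rw [h2]
    exact neg_ne_zero.2 one_ne_zero
  have hs := hP.s0
  have hn : s - 1 ≠ 0 := by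
    intro h
    apply hP.s1
    linear_combination (s + 1) * h
  have hN : s + 1 ≠ 0 := by
    intro h
    apply hP.s1
    linear_combination (s - 1) * h
  have hd0 : s ^ 2 + (s ^ 2)⁻¹ ≠ 0 := by
    intro h
    apply hP.s4
    have : s ^ 2 * (s ^ 2 + (s ^ 2)⁻¹) = 0 := by rw [h, mul_zero]
    field_simp at this
    linear_combination this
  have hd2 : s ^ 2 + (s ^ 2)⁻¹ - 2 ≠ 0 := by
    intro h
    have h4 : s ^ 2 * (s ^ 2 + (s ^ 2)⁻¹ - 2) = 0 := by rw [h, mul_zero]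
    field_simp at h4
    have h5 : (s ^ 2 - 1) ^ 2 = 0 := by linear_combination h4
    exact hP.s1 (sub_eq_zero.1 (pow_eq_zero_iff (two_ne_zero)|>.1 h5))
  have hμ : -(s ^ 2) ≠ 0 := neg_ne_zero.2 (pow_ne_zero _ hs)
  have hbc : GIs (b * c) false (dg (-(s ^ 2)) 1 (-(s ^ 2))⁻¹) := by
    have := hG.hb.mul_inner hG.hc
    rwa [an_mul] at this
  refine ⟨fun k hk => ?_, fun k hk => ?_⟩
  · refine comm_one (pow_ne_zero k hμ) (dg_pow' _ k _ hbc) hG.hd ?_ ?_ hk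
    · show 2 * ((s ^ 2 + (s ^ 2)⁻¹) * (s + 1) ^ 6) * (-1) * ((s + 1) ^ 3 * s⁻¹) ≠ 0
      exact mul_ne_zero (mul_ne_zero (mul_ne_zero h2' (mul_ne_zero hd0 (pow_ne_zero _ hN)))
        (neg_ne_zero.2 one_ne_zero)) (mul_ne_zero (pow_ne_zero _ hN) (inv_ne_zero hs))
    · show ((s ^ 2 + (s ^ 2)⁻¹) * (s + 1) ^ 6) ^ 2 * (-1) ^ 2 -
        2 * ((s ^ 2 + (s ^ 2)⁻¹) * (s + 1) ^ 6) * (s * (s + 1) ^ 3) * ((s + 1) ^ 3 * s⁻¹) ≠ 0
      have e : ((s ^ 2 + (s ^ 2)⁻¹) * (s + 1) ^ 6) ^ 2 * (-1) ^ 2 -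
        2 * ((s ^ 2 + (s ^ 2)⁻¹) * (s + 1) ^ 6) * (s * (s + 1) ^ 3) * ((s + 1) ^ 3 * s⁻¹) =
        (s ^ 2 + (s ^ 2)⁻¹) * (s + 1) ^ 12 * (s ^ 2 + (s ^ 2)⁻¹ - 2) := by
        generalize (s ^ 2)⁻¹ = t
        have : s * s⁻¹ = 1 := mul_inv_cancel₀ hs
        linear_combination (-(2 * (s ^ 2 + t) * (s + 1) ^ 12)) * this
      rw [e]
      exact mul_ne_zero (mul_ne_zero hd0 (pow_ne_zero _ hN)) hd2
  · refine comm_one (pow_ne_zero k hμ) (dg_pow' _ k _ hbc) hG.ha ?_ ?_ hk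
    · show 2 * (-((s ^ 2 + (s ^ 2)⁻¹) * (s - 1) ^ 6)) * 1 * (-(s - 1) ^ 3) ≠ 0
      exact mul_ne_zero (mul_ne_zero (mul_ne_zero h2' (neg_ne_zero.2
        (mul_ne_zero hd0 (pow_ne_zero _ hn)))) one_ne_zero) (neg_ne_zero.2 (pow_ne_zero _ hn))
    · show (-((s ^ 2 + (s ^ 2)⁻¹) * (s - 1) ^ 6)) ^ 2 * 1 ^ 2 -
        2 * (-((s ^ 2 + (s ^ 2)⁻¹) * (s - 1) ^ 6)) * ((s - 1) ^ 3) * (-(s - 1) ^ 3) ≠ 0
      have e : (-((s ^ 2 + (s ^ 2)⁻¹) * (s - 1) ^ 6)) ^ 2 * 1 ^ 2 -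
        2 * (-((s ^ 2 + (s ^ 2)⁻¹) * (s - 1) ^ 6)) * ((s - 1) ^ 3) * (-(s - 1) ^ 3) =
        (s ^ 2 + (s ^ 2)⁻¹) * (s - 1) ^ 12 * (s ^ 2 + (s ^ 2)⁻¹ - 2) := by
        ring
      rw [e]
      exact mul_ne_zero (mul_ne_zero hd0 (pow_ne_zero _ hn)) hd2

end Pool.Agent.H62.SCG2
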