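import Pool.Agent.H24.SCG2.Stmts1
import Pool.Agent.H26.SCG.LP

/-!
Module LP3 of the project SCG2: the concrete form of Lemma P for elements of order three.
-/

set_option autoImplicit false

namespace Pool.Agent.H62.SCG2

open Matrix Pool.SCG OnePoint
open Pool.Agent.H26.SCG (am act_infty act_infty_ne act_coe act_scalar act_ker stab)

theorem lp3_thm (hZPP : ZPP3Stmt) (hZAX : ZAXStmt) : LP3Stmt := by
  intro F _ _ h2 X N hNX hidx hsc x1 t g0 p r τ hx1 hx1N ht hg0 hx1' ht' hthree h00 h10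
  rw [or_iff_not_imp_left]
  intro hcon
  have hZ := hZAX F h2 X
  have hτ1 : τ ≠ 1 := by
    rintro rfl
    rw [orderOf_one] at hthree
    omega
  have hr : r ≠ 0 := by
    intro hr
    have := x1.det_ne_zero
    rw [hx1', hr, det_fin_two] at this
    simp at this
  let K := X.map (act F)
  have hfin : Finite K := by
    refine Finite.of_surjective
      (fun x : X => (⟨act F x.1, Subgroup.mem_map_of_mem _ x.2⟩ : K)) ?_
    rintro ⟨y, hy⟩
    obtain ⟨x, hx, rfl⟩ := Subgroup.mem_map.1 hy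
    exact ⟨⟨x, hx⟩, rfl⟩
  let N' : Subgroup K := (N.map (act F)).subgroupOf K
  have hN' : ∀ (g : GL (Fin 2) F) (hg : g ∈ X),
      (⟨act F g, Subgroup.mem_map_of_mem _ hg⟩ : K) ∈ N' ↔ g ∈ N := by
    intro g hg
    rw [Subgroup.mem_subgroupOf]
    constructor
    · intro h
      obtain ⟨n, hn, he⟩ := Subgroup.mem_map.1 h
      have he' : act F n = act F g := he
      have h3 : act F (g * n⁻¹) = 1 := by
        rw [map_mul, map_inv, he', mul_inv_cancel]
      obtain ⟨c, hc⟩ := act_ker h3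
      have h4 := hsc _ c hc
      have h5 := N.mul_mem h4 hn
      rwa [inv_mul_cancel_right] at h5
    · intro h
      exact Subgroup.mem_map_of_mem _ h
  have hidx' : ∀ x y : K, x ∉ N' → y ∉ N' → x * y ∈ N' := by
    rintro ⟨x, hx⟩ ⟨y, hy⟩ hxN hyN
    obtain ⟨a, ha, rfl⟩ := Subgroup.mem_map.1 hx
    obtain ⟨b, hb, rfl⟩ := Subgroup.mem_map.1 hy
    have h3 := hidx a ha b hb (fun h => hxN ((hN' a ha).2 h)) (fun h => hyN ((hN' b hb).2 h))
    have h4 := (hN' (a * b) (X.mul_mem ha hb)).2 h3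
    have h5 : (⟨act F (a * b), Subgroup.mem_map_of_mem _ (X.mul_mem ha hb)⟩ : K)
        = ⟨act F a, hx⟩ * ⟨act F b, hy⟩ := Subtype.ext (map_mul _ _ _)
    rwa [h5] at h4
  have h0inf : ((0 : AlgebraicClosure F) : Om F) ≠ ∞ := OnePoint.coe_ne_infty _
  have htpow : ∀ n : ℕ, ((t ^ n : GL (Fin 2) F) : Matrix (Fin 2) (Fin 2) F)
      = !![τ ^ n, 0; 0, 1] := by
    intro n
    induction n with
    | zero =>
      ext i j
      fin_cases i <;> fin_cases j <;> simp
    | succ n ih =>
      rw [pow_succ, Units.val_mul, ih, ht', Matrix.mul_fin_two]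
      ext i j
      fin_cases i <;> fin_cases j <;> simp [pow_succ]
  have hord : orderOf (⟨act F t, Subgroup.mem_map_of_mem _ ht⟩ : K) = orderOf τ := by
    rw [orderOf_eq_orderOf_iff]
    intro n
    have e : (⟨act F t, Subgroup.mem_map_of_mem _ ht⟩ : K) ^ n = 1 ↔ act F (t ^ n) = 1 := by
      rw [map_pow]
      exact Subtype.ext_iff
    rw [e]
    constructor
    · intro h
      obtain ⟨c, hc⟩ := act_ker h
      rw [htpow] at hc
      have e1 := congrFun (congrFun hc 0) 0
      have e2 := congrFun (congrFun hc 1) 1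
      simp at e1 e2
      rw [e1, e2]
    · intro h
      apply act_scalar (c := 1)
      rw [htpow, h]
  have main : ∀ g : K, orderOf g ≤ 4 := by
   refine hZPP K (Om F) hZ N' hidx' ∞ ((0 : AlgebraicClosure F) : Om F)
    ⟨act F x1, Subgroup.mem_map_of_mem _ hx1⟩ ⟨act F t, Subgroup.mem_map_of_mem _ ht⟩
    ⟨act F g0, Subgroup.mem_map_of_mem _ hg0⟩ h0inf.symm
    (fun h => hx1N ((hN' x1 hx1).1 h)) ?_ ?_ ?_ ?_ ?_ ?_ ?_ ?_
   · apply Subtype.ext
     show act F x1 * act F x1 = 1
     rw [← map_mul]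
     apply act_scalar (c := p * r)
     rw [Units.val_mul, hx1', Matrix.mul_fin_two]
     ext i j
     fin_cases i <;> fin_cases j <;> simp [mul_comm]
   · show act F x1 ∞ = _
     have h3 : (x1 : Matrix (Fin 2) (Fin 2) F) 1 0 ≠ 0 := by rw [hx1']; simpa using hr
     rw [act_infty_ne _ h3, hx1']
     simp
   · show act F t ∞ = _
     rw [act_infty, ht']
     simp
   · show act F t ((0 : AlgebraicClosure F) : Om F) = _
     have h3 : am F ((t : Matrix (Fin 2) (Fin 2) F) 1 0) * 0 +
       am F ((t : Matrix (Fin 2) (Fin 2) F) 1 1) ≠ 0 := by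
       rw [ht']
       simp
     rw [act_coe t 0 h3, ht']
     simp
   · rw [hord]; exact hthree
   · show ¬ act F g0 ∞ = _
     rw [act_infty]
     exact h10
   · show ¬ act F g0 ∞ = _
     rw [act_infty_ne _ h10, OnePoint.coe_eq_coe, div_eq_zero_iff]
     rintro (h | h)
     · exact h00 ((_root_.map_eq_zero _).1 h)
     · exact h10 ((_root_.map_eq_zero _).1 h)
   · rintro ⟨s, hs⟩ hfix hsq
     obtain ⟨γ, hγ, rfl⟩ := Subgroup.mem_map.1 hs
     apply Subtype.ext
     show act F γ = 1
     have hfix' : act F γ ∞ = ∞ := hfix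
     have hsq' : act F (γ * γ) = 1 := by
       rw [map_mul]
       exact congrArg Subtype.val hsq
     rw [act_infty] at hfix'
     obtain ⟨c, hc⟩ := act_ker hsq'
     obtain ⟨a, b, d, hγ'⟩ : ∃ a b d : F, (γ : Matrix (Fin 2) (Fin 2) F) = !![a, b; 0, d] := by
       refine ⟨(γ : Matrix (Fin 2) (Fin 2) F) 0 0, (γ : Matrix (Fin 2) (Fin 2) F) 0 1,
         (γ : Matrix (Fin 2) (Fin 2) F) 1 1, ?_⟩
       ext i j
       fin_cases i <;> fin_cases j <;> simp [hfix']
     rw [Units.val_mul, hγ', Matrix.mul_fin_two] at hc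
     have e1 := congrFun (congrFun hc 0) 0
     have e2 := congrFun (congrFun hc 0) 1
     have e3 := congrFun (congrFun hc 1) 1
     simp at e1 e2 e3
     have hdet := γ.det_ne_zero
     rw [hγ', det_fin_two] at hdet
     simp at hdet
     have h3 : (a - d) * (a + d) = 0 := by linear_combination e1 - e3
     rcases mul_eq_zero.1 h3 with h4 | h4
     · have had : a = d := sub_eq_zero.1 h4
       have hb : b = 0 := by
         have h5 : (2 * a) * b = 0 := by
           rw [← had] at e2
           linear_combination e2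
         exact (mul_eq_zero.1 h5).resolve_left (mul_ne_zero h2 hdet.1)
       apply act_scalar (c := a)
       rw [hγ', hb, had]
     · exfalso
       apply hcon
       have had : d = -a := by linear_combination h4
       have ha : a ≠ 0 := hdet.1
       let sc : GL (Fin 2) F := Matrix.GeneralLinearGroup.mkOfDetNeZero !![a⁻¹, 0; 0, a⁻¹] (by
         rw [det_fin_two]
         simp [ha])
       have hscX : sc ∈ X := hNX (hsc sc a⁻¹ rfl)
       refine stab X (t := t) (w := γ * sc) (τ := τ)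
         (β := b * a⁻¹) ht (X.mul_mem hγ hscX) hτ1 ht' ?_
       rw [Units.val_mul, hγ']
       show !![a, b; 0, d] * !![a⁻¹, 0; 0, a⁻¹] = _
       rw [Matrix.mul_fin_two, had]
       ext i j
       fin_cases i <;> fin_cases j <;> simp [ha]

  intro g hg
  have h1 := main ⟨act F g, Subgroup.mem_map_of_mem _ hg⟩
  refine ⟨orderOf (⟨act F g, Subgroup.mem_map_of_mem _ hg⟩ : K), ?_⟩
  have h3 : (⟨act F g, Subgroup.mem_map_of_mem _ hg⟩ : K) ^
      orderOf (⟨act F g, Subgroup.mem_map_of_mem _ hg⟩ : K) = 1 := pow_orderOf_eq_one _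
  have h4 : act F (g ^ orderOf (⟨act F g, Subgroup.mem_map_of_mem _ hg⟩ : K)) = 1 := by
    rw [map_pow]
    exact congrArg Subtype.val h3
  obtain ⟨c, hc⟩ := act_ker h4
  exact ⟨c, orderOf_pos _, h1, hc⟩

end Pool.Agent.H62.SCG2
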