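import Pool.Agent.H24.SCG2.Stmts1
import Pool.Agent.H33.SCG.ZPP

/-!
Module ZPP3 of the project SCG2: the abstract form of Lemma P for elements of order three.
-/

namespace Pool.Agent.H62.SCG2

open Pool.SCG Pool.Agent.H1.SCG
open Pool.Agent.H33.SCG (odd_mem conj_mem zas_sub stab_even stab_ge arithA)

section

variable {K Ω : Type} [Group K] [MulAction K Ω]

theorem case1 [Finite K] (hZ : Zas K Ω) (N : Subgroup K)
    (hN : ∀ x y : K, x ∉ N → y ∉ N → x * y ∈ N) (y y' : Ω) (x1 t g0 : K) (hyy : y ≠ y')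
    (hx1 : x1 * x1 = 1) (hx1y : x1 • y = y') (hty : t • y = y)
    (hty' : t • y' = y') (hto : orderOf t = 3) (hg1 : g0 • y ≠ y)
    (hg2 : g0 • y ≠ y') (hinv : ∀ z ∈ N, z * z = 1 → z = 1) : False := by
  have hodd : Odd (Nat.card N) := by
    by_contra h
    rw [Nat.not_odd_iff_even] at h
    obtain ⟨w, hw⟩ := exists_prime_orderOf_dvd_card' (G := N) 2 h.two_dvd
    have h1 : w * w = 1 := by rw [← pow_two, ← hw, pow_orderOf_eq_one]
    have h2 : (w : K) = 1 := hinv w w.2 (congrArg Subtype.val h1)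
    have h3 : w = 1 := Subtype.ext h2
    rw [h3, orderOf_one] at hw
    exact absurd hw (by decide)
  obtain ⟨x, hx⟩ := zodd_thm N Ω (zas_sub hZ N) hodd
  have htN := odd_mem N hN t (by rw [hto]; decide)
  have ht1 : t ≠ 1 := by
    intro h
    rw [h, orderOf_one] at hto
    omega
  have hx' : ∀ n ∈ N, n • x = x := fun n hn => hx ⟨n, hn⟩
  have key : ∀ w : Ω, (∀ n ∈ N, n • w = w) → ∀ g : K, ∀ n ∈ N, n • (g • w) = g • w := by
    intro w hw g n hn
    have h1 := hw (g⁻¹ * n * g⁻¹⁻¹) (conj_mem N hN g⁻¹ n hn)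
    rw [inv_inv, mul_smul, mul_smul, inv_smul_eq_iff] at h1
    exact h1
  have hy : ∀ n ∈ N, n • y = y := by
    rcases hZ.fix2 t ht1 y y' x hty hty' (hx' t htN) with h | h | h
    · exact absurd h hyy
    · have h5 := key x hx' x1
      rw [← h, ← hx1y, smul_smul, hx1, one_smul] at h5
      exact h5
    · rw [h]; exact hx'
  have h6 := key y hy g0 t htN
  rcases hZ.fix2 t ht1 y y' (g0 • y) hty hty' h6 with h | h | h
  · exact hyy h
  · exact hg2 h.symm
  · exact hg1 h.symm

theorem arithB3 (n oy ay by1 oz az bz ox ax bx ow aw bw : ℕ) (hn : 0 < n)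
    (cy : oy * (ay + 1) = n)
    (cz : oz * (az + 1) = n) (cx : ox * (ax + 1) = n) (cw : ow * (aw + 1) = n)
    (h3 : 3 ≤ ay + 1)
    (hz : 1 ≤ az) (hx : 1 ≤ ax) (hw : 1 ≤ aw)
    (hsum : oy * (ay + by1) + (oz * (az + bz) + ox * (ax + bx)) + ow * (aw + bw)
      ≤ 2 * (n - 1)) : False := by
  have i1 : 2 * n ≤ 3 * (oy * (ay + by1)) := by
    rw [← cy]
    have : 2 * (ay + 1) ≤ 3 * (ay + by1) := by omega
    calc 2 * (oy * (ay + 1)) = oy * (2 * (ay + 1)) := by ring
      _ ≤ oy * (3 * (ay + by1)) := Nat.mul_le_mul_left _ this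
      _ = _ := by ring
  have i2 : n ≤ 2 * (oz * (az + bz)) := by
    rw [← cz]
    have : (az + 1) ≤ 2 * (az + bz) := by omega
    calc (oz * (az + 1)) ≤ oz * (2 * (az + bz)) := Nat.mul_le_mul_left _ this
      _ = _ := by ring
  have i3 : n ≤ 2 * (ox * (ax + bx)) := by
    rw [← cx]
    have : (ax + 1) ≤ 2 * (ax + bx) := by omega
    calc (ox * (ax + 1)) ≤ ox * (2 * (ax + bx)) := Nat.mul_le_mul_left _ this
      _ = _ := by ring
  have i4 : n ≤ 2 * (ow * (aw + bw)) := by
    rw [← cw]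
    have : (aw + 1) ≤ 2 * (aw + bw) := by omega
    calc (ow * (aw + 1)) ≤ ow * (2 * (aw + bw)) := Nat.mul_le_mul_left _ this
      _ = _ := by ring
  omega

theorem arithC3 (n oy ay by1 oz az bz ox ax bx : ℕ) (hn : 0 < n)
    (cy : oy * (ay + 1) = n)
    (cz : oz * (az + 1) = n) (cx : ox * (ax + 1) = n)
    (h3 : 3 ≤ ay + 1)
    (hz : 5 ≤ az) (hx : 1 ≤ ax)
    (hsum : oy * (ay + by1) + (oz * (az + bz) + ox * (ax + bx)) = 2 * (n - 1)) : False := by
  have i1 : 2 * n ≤ 3 * (oy * (ay + by1)) := by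
    rw [← cy]
    have : 2 * (ay + 1) ≤ 3 * (ay + by1) := by omega
    calc 2 * (oy * (ay + 1)) = oy * (2 * (ay + 1)) := by ring
      _ ≤ oy * (3 * (ay + by1)) := Nat.mul_le_mul_left _ this
      _ = _ := by ring
  have i2 : 5 * n ≤ 6 * (oz * (az + bz)) := by
    rw [← cz]
    have : 5 * (az + 1) ≤ 6 * (az + bz) := by omega
    calc 5 * (oz * (az + 1)) = oz * (5 * (az + 1)) := by ring
      _ ≤ oz * (6 * (az + bz)) := Nat.mul_le_mul_left _ this
      _ = _ := by ring
  have i3 : n ≤ 2 * (ox * (ax + bx)) := by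
    rw [← cx]
    have : (ax + 1) ≤ 2 * (ax + bx) := by omega
    calc (ox * (ax + 1)) ≤ ox * (2 * (ax + bx)) := Nat.mul_le_mul_left _ this
      _ = _ := by ring
  omega

theorem stab_odd [Fintype K] (y : Ω) (hno : ∀ g : K, g • y = y → g * g = 1 → g = 1) :
    Odd ((fA (K := K) y).card + 1) := by
  rw [← card_stab]
  by_contra h
  rw [Nat.not_odd_iff_even] at h
  obtain ⟨w, hw⟩ := exists_prime_orderOf_dvd_card' (G := MulAction.stabilizer K y) 2 h.two_dvd
  have h1 : w * w = 1 := by rw [← pow_two, ← hw, pow_orderOf_eq_one]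
  have h2 : (w : K) = 1 := hno w (MulAction.mem_stabilizer_iff.1 w.2) (congrArg Subtype.val h1)
  have h3 : w = 1 := Subtype.ext h2
  rw [h3, orderOf_one] at hw
  exact absurd hw (by decide)

theorem case2 [Fintype K] (hZ : Zas K Ω) (N : Subgroup K)
    (hN : ∀ x y : K, x ∉ N → y ∉ N → x * y ∈ N) (y y' : Ω) (x1 t g0 z0 : K) (hyy : y ≠ y')
    (hx1N : x1 ∉ N) (hx1 : x1 * x1 = 1) (hx1y : x1 • y = y') (hty : t • y = y)
    (ht3 : orderOf t = 3) (hg1 : g0 • y ≠ y)
    (hg2 : g0 • y ≠ y') (hno : ∀ g : K, g • y = y → g * g = 1 → g = 1)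
    (hz0N : z0 ∈ N) (hz01 : z0 ≠ 1) (hz02 : z0 * z0 = 1) : ∀ g : K, orderOf g ≤ 4 := by
  classical
  have hx11 : x1 ≠ 1 := fun h => hx1N (h ▸ N.one_mem)
  obtain ⟨z, hz⟩ := hZ.fix1 x1
  obtain ⟨x, hx⟩ := hZ.fix1 z0
  obtain ⟨S, hS, hsum⟩ := count hZ
  -- elements of order two do not fix points of the first orbit
  have hnoO : ∀ (g : K) (w : Ω), w ∈ fO K y → g • w = w → g * g = 1 → g = 1 := by
    intro g w hw hgw hg
    obtain ⟨k, rfl⟩ := mem_fO.1 hw
    have h1 : (k⁻¹ * g * k) • y = y := by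
      rw [mul_smul, mul_smul, hgw, inv_smul_smul]
    have h2 : (k⁻¹ * g * k) * (k⁻¹ * g * k) = 1 := by
      calc (k⁻¹ * g * k) * (k⁻¹ * g * k) = k⁻¹ * (g * g) * k := by group
        _ = 1 := by rw [hg]; group
    have h3 := hno _ h1 h2
    calc g = k * (k⁻¹ * g * k) * k⁻¹ := by group
      _ = 1 := by rw [h3]; group
  have hzy : z ∉ fO K y := fun h => hx11 (hnoO x1 z h hz hx1)
  have hxy : x ∉ fO K y := fun h => hz01 (hnoO z0 x h hx hz02)
  have hxz : x ∉ fO K z := by
    intro h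
    obtain ⟨g, hg⟩ := mem_fO.1 h
    have a1 : (g * x1 * g⁻¹) • x = x := by
      rw [← hg, mul_smul, mul_smul, inv_smul_smul, hz]
    have a2 : (g * x1 * g⁻¹) * (g * x1 * g⁻¹) = 1 := by
      calc (g * x1 * g⁻¹) * (g * x1 * g⁻¹) = g * (x1 * x1) * g⁻¹ := by group
        _ = 1 := by rw [hx1]; group
    have a3 : g * x1 * g⁻¹ ∉ N := by
      intro hm
      have h1 := conj_mem N hN g⁻¹ _ hm
      have h2 : g⁻¹ * (g * x1 * g⁻¹) * g⁻¹⁻¹ = x1 := by group
      rw [h2] at h1
      exact hx1N h1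
    have a4 : g * x1 * g⁻¹ ≠ 1 := fun e => a3 (e ▸ N.one_mem)
    rcases hZ.invol x (g * x1 * g⁻¹) z0 a4 hz01 a2 hz02 a1 hx with e | e
    · exact a3 (e ▸ hz0N)
    · have a5 : g * x1 * g⁻¹ * z0 ∉ N := fun hm => a3 ((N.mul_mem_cancel_right hz0N).1 hm)
      have a6 : g * x1 * g⁻¹ * z0 ≠ 1 := fun e => a5 (e ▸ N.one_mem)
      exact a5 (odd_mem N hN _ (hZ.odd_uni x _ a6 e))
  have hsub : ∀ x ∈ S, fO K x ⊆ S := by
    intro x hx z hz
    obtain ⟨g, rfl⟩ := mem_fO.1 hz
    rw [hS, card_fA_smul]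
    exact (hS x).1 hx
  have hKpos : 0 < Nat.card K := Nat.card_pos
  have ez := stab_even x1 z hx11 hx1 hz
  have ex := stab_even z0 x hz01 hz02 hx
  have gy : 3 ≤ (fA (K := K) y).card + 1 := by
    have := stab_ge t y hty
    rwa [ht3] at this
  have oy := stab_odd y hno
  have az1 : 1 ≤ (fA (K := K) z).card := by
    rcases ez with ⟨r, hr⟩
    omega
  have ax1 : 1 ≤ (fA (K := K) x).card := by
    rcases ex with ⟨r, hr⟩
    omega
  have hyS : y ∈ S := by rw [hS]; omega
  have hzS : z ∈ S := by rw [hS]; exact az1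
  have hxS : x ∈ S := by rw [hS]; exact ax1
  have cy := card_orb (K := K) y
  have cz := card_orb (K := K) z
  have cx := card_orb (K := K) x
  have sy := sum_orb (K := K) y
  have sz := sum_orb (K := K) z
  have sx := sum_orb (K := K) x
  have hd : Disjoint (fO K y) ((fO K z).disjUnion (fO K x) (fO_disj hxz)) :=
    Finset.disjoint_left.2 (fun v hv hv' => by
      rcases Finset.mem_disjUnion.1 hv' with h | h
      · exact Finset.disjoint_left.1 (fO_disj hzy) hv h
      · exact Finset.disjoint_left.1 (fO_disj hxy) hv h)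
  have hsubU : ∀ v ∈ (fO K y).disjUnion ((fO K z).disjUnion (fO K x) (fO_disj hxz)) hd, v ∈ S := by
    intro v hv
    rcases Finset.mem_disjUnion.1 hv with h | h
    · exact hsub y hyS h
    · rcases Finset.mem_disjUnion.1 h with h | h
      · exact hsub z hzS h
      · exact hsub x hxS h
  by_cases hcase : ∀ w ∈ S, w ∈ fO K y ∨ w ∈ fO K z ∨ w ∈ fO K x
  · have hSe : S = (fO K y).disjUnion ((fO K z).disjUnion (fO K x) (fO_disj hxz)) hd := by
      ext w
      rw [Finset.mem_disjUnion, Finset.mem_disjUnion]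
      constructor
      · exact hcase w
      · intro h
        exact hsubU w (Finset.mem_disjUnion.2 (h.imp id (fun h => Finset.mem_disjUnion.2 h)))
    rw [hSe, Finset.sum_disjUnion, Finset.sum_disjUnion, sy, sz, sx] at hsum
    have e3 : (fA (K := K) y).card + 1 ≤ 4 := by
      by_contra h5
      have h5' : 5 ≤ (fA (K := K) y).card + 1 := by omega
      have h2 := arithA _ _ _ _ _ _ _ _ _ _ hKpos cy cz cx h5' ez ex hsum
      obtain ⟨a, b, _, he⟩ := Finset.card_eq_two.1 h2
      have m1 : y ∈ fO K y := mem_fO.2 ⟨1, one_smul _ _⟩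
      have m2 : y' ∈ fO K y := mem_fO.2 ⟨x1, hx1y⟩
      have m3 : g0 • y ∈ fO K y := mem_fO.2 ⟨g0, rfl⟩
      rw [he, Finset.mem_insert, Finset.mem_singleton] at m1 m2 m3
      rcases m1 with m1 | m1 <;> rcases m2 with m2 | m2 <;> rcases m3 with m3 | m3
      · exact hyy (m1.trans m2.symm)
      · exact hyy (m1.trans m2.symm)
      · exact hg1 (m3.trans m1.symm)
      · exact hg2 (m3.trans m2.symm)
      · exact hg2 (m3.trans m2.symm)
      · exact hg1 (m3.trans m1.symm)
      · exact hyy (m1.trans m2.symm)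
      · exact hyy (m1.trans m2.symm)
    have e4 : (fA (K := K) z).card + 1 ≤ 4 := by
      by_contra h5
      have h5' : 5 ≤ (fA (K := K) z).card := by
        rcases ez with ⟨r, hr⟩
        omega
      exact arithC3 _ _ _ _ _ _ _ _ _ _ hKpos cy cz cx gy h5' ax1 hsum
    have e5 : (fA (K := K) x).card + 1 ≤ 4 := by
      by_contra h5
      have h5' : 5 ≤ (fA (K := K) x).card := by
        rcases ex with ⟨r, hr⟩
        omega
      exact arithC3 _ _ _ (fB (K := K) y).card _ _ (fB (K := K) x).card _ _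
        (fB (K := K) z).card hKpos cy cx cz gy h5' az1 (by
        rw [← hsum]
        ring)
    intro g
    by_cases hg : g = 1
    · rw [hg, orderOf_one]
      omega
    · obtain ⟨w, hw⟩ := hZ.fix1 g
      have hle := stab_ge g w hw
      have hwS : w ∈ S := by
        rw [hS]
        exact Finset.card_pos.2 ⟨g, by simp [fA, hg, hw]⟩
      have tr : ∀ v : Ω, w ∈ fO K v → (fA (K := K) w).card = (fA (K := K) v).card := by
        intro v hv
        obtain ⟨k, rfl⟩ := mem_fO.1 hv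
        exact card_fA_smul k v
      rcases hcase w hwS with h | h | h
      · rw [tr _ h] at hle
        omega
      · rw [tr _ h] at hle
        omega
      · rw [tr _ h] at hle
        omega
  · push Not at hcase
    obtain ⟨w, hwS, hwy, hwz, hwx⟩ := hcase
    have cw := card_orb (K := K) w
    have aw := (hS w).1 hwS
    have sw := sum_orb (K := K) w
    have hd2 : Disjoint ((fO K y).disjUnion ((fO K z).disjUnion (fO K x) (fO_disj hxz)) hd)
        (fO K w) := Finset.disjoint_left.2 (fun v hv hv' => by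
      rcases Finset.mem_disjUnion.1 hv with h | h
      · exact Finset.disjoint_left.1 (fO_disj hwy) h hv'
      · rcases Finset.mem_disjUnion.1 h with h | h
        · exact Finset.disjoint_left.1 (fO_disj hwz) h hv'
        · exact Finset.disjoint_left.1 (fO_disj hwx) h hv')
    have hle : ∑ v ∈ ((fO K y).disjUnion ((fO K z).disjUnion (fO K x) (fO_disj hxz)) hd).disjUnion
        (fO K w) hd2, ((fA (K := K) v).card + (fB (K := K) v).card)
        ≤ ∑ v ∈ S, ((fA (K := K) v).card + (fB (K := K) v).card) := by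
      apply Finset.sum_le_sum_of_subset
      intro v hv
      rcases Finset.mem_disjUnion.1 hv with h | h
      · exact hsubU v h
      · exact hsub w hwS h
    rw [Finset.sum_disjUnion, Finset.sum_disjUnion, Finset.sum_disjUnion, sy, sz, sx, sw,
      hsum] at hle
    exact (arithB3 _ _ _ _ _ _ _ _ _ _ _ _ _ hKpos cy cz cx cw gy az1 ax1 aw hle).elim

end

/-- the abstract form of Lemma P for elements of order three -/
theorem zpp3_thm : ZPP3Stmt := by
  intro K Ω _ _ _ hZ N hN y y' x1 t g0 hyy hx1N hx1 hx1y hty hty' hto hg1 hg2 hno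
  have := Fintype.ofFinite K
  by_cases hinv : ∀ z ∈ N, z * z = 1 → z = 1
  · exact (case1 hZ N hN y y' x1 t g0 hyy hx1 hx1y hty hty' hto hg1 hg2 hinv).elim
  · push Not at hinv
    obtain ⟨z0, hz0N, hz02, hz01⟩ := hinv
    exact case2 hZ N hN y y' x1 t g0 z0 hyy hx1N hx1 hx1y hty hto hg1 hg2 hno hz0N hz01 hz02

end Pool.Agent.H62.SCG2
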